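import Mathlib
import Pool.Agent.Helper94.PS.Main

set_option autoImplicit false

/-!
Every group-invariant consistent path system `P` in a Cayley graph of a finite group `G`
satisfies `Δ(P) ≤ 10 √|G|`.
-/

namespace Pool.Agent.Results.MP_8f0578_co.SqrtUpperBound

/-- The Cayley graph of `G` with respect to the symmetric set `S`: edges `{x, x s}`. -/
def cayleyGraph {G : Type} [Group G] (S : Set G) (hS : ∀ s ∈ S, s⁻¹ ∈ S) : SimpleGraph G where
  Adj x y := x ≠ y ∧ x⁻¹ * y ∈ S
  symm := by
    constructor
    rintro x y ⟨h1, h2⟩
    exact ⟨h1.symm, by simpa using hS _ h2⟩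
  loopless := ⟨fun _ h => h.1 rfl⟩

/-- A consistent path system in a graph. A path is the list of its vertices: `path u v` begins
with `u`, ends with `v`, has no repeated vertex and consecutive vertices are adjacent; the path
from `v` to `u` is the path from `u` to `v` traversed backwards; and every nonempty block `m` of
consecutive vertices of a path of the system, beginning with `a` and ending with `b`, is the path
of the system from `a` to `b`. -/
structure PathSystem {V : Type} (Γ : SimpleGraph V) where
  path : V → V → List V
  first : ∀ u v, (path u v).head? = some u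
  last : ∀ u v, (path u v).getLast? = some v
  simple : ∀ u v, (path u v).Nodup
  adj : ∀ u v, (path u v).IsChain Γ.Adj
  symm : ∀ u v, path v u = (path u v).reverse
  consistent : ∀ u v a b m, m <:+: path u v → m.head? = some a → m.getLast? = some b →
    path a b = m

/-- The length `ρ(P)` of a path: the sum of `ρ` over consecutive vertices. -/
def pathLen {V : Type} (ρ : V → V → ℝ) : List V → ℝ
  | [] => 0
  | [_] => 0
  | x :: y :: l => ρ x y + pathLen ρ (y :: l)

/-- `ρ` is a metric. -/
structure IsMetric {V : Type} (ρ : V → V → ℝ) : Prop where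
  eq_zero_iff : ∀ x y, ρ x y = 0 ↔ x = y
  symm : ∀ x y, ρ x y = ρ y x
  triangle : ∀ x y z, ρ x z ≤ ρ x y + ρ y z

/-- The path system is `α`-metric. -/
def PathSystem.AlphaMetric {V : Type} {Γ : SimpleGraph V} (P : PathSystem Γ) (α : ℝ) : Prop :=
  ∃ ρ : V → V → ℝ, IsMetric ρ ∧ ∀ u v, pathLen ρ (P.path u v) ≤ α * ρ u v

/-- `Δ(P)`, the infimum of all `α ≥ 1` such that `P` is `α`-metric. -/
noncomputable def PathSystem.Delta {V : Type} {Γ : SimpleGraph V} (P : PathSystem Γ) : ℝ :=
  sInf {α : ℝ | 1 ≤ α ∧ P.AlphaMetric α}

/-- A finite group with a symmetric generating set and a `G`-invariant consistent path system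
in the Cayley graph. -/
structure InvariantSystem where
  G : Type
  [group : Group G]
  [fintype : Fintype G]
  S : Set G
  symmetric : ∀ s ∈ S, s⁻¹ ∈ S
  generates : Subgroup.closure S = ⊤
  P : PathSystem (cayleyGraph S symmetric)
  invariant : ∀ g x y : G, (P.path x y).map (fun z => g * z) = P.path (g * x) (g * y)

attribute [instance] InvariantSystem.group InvariantSystem.fintype

section proofs

open Finset Pool.Agent.Helper94.PS

theorem pathLen_eq {V : Type} (ρ : V → V → ℝ) (d : V) : ∀ L : List V,
    pathLen ρ L = ∑ t ∈ range (L.length - 1), ρ (L.getD t d) (L.getD (t + 1) d)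
  | [] => by simp [pathLen]
  | [_] => by simp [pathLen]
  | x :: y :: l => by
    rw [pathLen, pathLen_eq ρ d (y :: l)]
    have : (x :: y :: l).length - 1 = ((y :: l).length - 1) + 1 := by simp
    rw [this, Finset.sum_range_succ', add_comm]
    rfl

theorem pathLen_map {V W : Type} (ρ : W → W → ℝ) (f : V → W) : ∀ L : List V,
    pathLen ρ (L.map f) = pathLen (fun x y => ρ (f x) (f y)) L
  | [] => rfl
  | [_] => rfl
  | x :: y :: l => by
    have := pathLen_map ρ f (y :: l)
    rw [List.map_cons] at this
    rw [List.map_cons, List.map_cons, pathLen, pathLen, this]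

variable (X : InvariantSystem)

/-- vertices of the path from `1` to `g` -/
def vx (g : X.G) (t : ℕ) : X.G := (X.P.path 1 g).getD t 1

/-- number of edges -/
def ke (g : X.G) : ℕ := (X.P.path 1 g).length - 1

theorem len_pos (u v : X.G) : 0 < (X.P.path u v).length := by
  have h := X.P.first u v
  rw [List.length_pos_iff]
  intro h0
  rw [h0] at h
  simp at h

theorem seg (g : X.G) (i j : ℕ) (hij : i ≤ j) (hj : j ≤ ke X g) :
    X.P.path (vx X g i) (vx X g j) = ((X.P.path 1 g).drop i).take (j - i + 1) := by
  have hl := len_pos X 1 g
  have hjl : j < (X.P.path 1 g).length := by unfold ke at hj; omega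
  apply X.P.consistent 1 g
  · exact (List.take_prefix _ _).isInfix.trans (List.drop_suffix _ _).isInfix
  · rw [List.head?_take, if_neg (by omega), List.head?_drop]
    unfold vx
    rw [List.getD_eq_getElem _ _ (by omega), List.getElem?_eq_getElem (by omega)]
  · rw [List.getLast?_eq_getElem?]
    have hlen : (((X.P.path 1 g).drop i).take (j - i + 1)).length = j - i + 1 := by
      rw [List.length_take, List.length_drop]; omega
    rw [hlen, List.getElem?_take, if_pos (by omega), List.getElem?_drop]
    unfold vx
    rw [List.getD_eq_getElem _ _ (by omega), show i + (j - i + 1 - 1) = j by omega,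
      List.getElem?_eq_getElem (by omega)]

theorem core : Core (ke X) (vx X) := by
  have hlen : ∀ g : X.G, (X.P.path 1 g).length = ke X g + 1 := by
    intro g
    have := len_pos X 1 g
    unfold ke
    omega
  refine ⟨?_, ?_, ?_, ?_, ?_⟩
  · intro g
    have h := X.P.first 1 g
    rw [List.head?_eq_getElem?] at h
    unfold vx
    rw [List.getD_eq_getElem?_getD, h]
    rfl
  · intro g
    have h := X.P.last 1 g
    rw [List.getLast?_eq_getElem?] at h
    unfold vx ke
    rw [List.getD_eq_getElem?_getD, h]
    rfl
  · intro g i j hi hj h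
    have hl := hlen g
    unfold vx at h
    rw [List.getD_eq_getElem _ _ (by omega), List.getD_eq_getElem _ _ (by omega)] at h
    exact (List.Nodup.getElem_inj_iff (X.P.simple 1 g)).1 h
  · intro g i j hij hj
    have hl := hlen g
    have hs := seg X g i j hij hj
    have hinv := X.invariant (vx X g i)⁻¹ (vx X g i) (vx X g j)
    rw [inv_mul_cancel, hs] at hinv
    constructor
    · unfold ke
      rw [← hinv, List.length_map, List.length_take, List.length_drop]
      omega
    · intro t ht
      unfold vx at hinv ⊢
      rw [← hinv]
      rw [List.getD_eq_getElem _ _ (by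
        rw [List.length_map, List.length_take, List.length_drop]; omega)]
      rw [List.getElem_map, List.getElem_take, List.getElem_drop]
      congr 1
      exact (List.getD_eq_getElem _ _ (by omega)).symm
  · intro g i j hij hj
    have hl := hlen g
    have hs := seg X g i j hij hj
    have hs2 := X.P.symm (vx X g i) (vx X g j)
    rw [hs] at hs2
    have hinv := X.invariant (vx X g j)⁻¹ (vx X g j) (vx X g i)
    rw [inv_mul_cancel, hs2] at hinv
    constructor
    · unfold ke
      rw [← hinv, List.length_map, List.length_reverse, List.length_take, List.length_drop]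
      omega
    · intro t ht
      unfold vx at hinv ⊢
      rw [← hinv]
      rw [List.getD_eq_getElem _ _ (by
        rw [List.length_map, List.length_reverse, List.length_take, List.length_drop]; omega)]
      rw [List.getElem_map, List.getElem_reverse, List.getElem_take, List.getElem_drop]
      congr 1
      rw [← List.getD_eq_getElem (l := X.P.path 1 g) 1]
      congr 1
      rw [List.length_take, List.length_drop]
      omega

theorem delta_le : X.P.Delta ≤ 10 * Real.sqrt (Fintype.card X.G) := by
  obtain ⟨d, h1, h2, h3, h4⟩ := exists_length (core X)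
  apply csInf_le
  · exact ⟨1, fun a ha => ha.1⟩
  · refine ⟨?_, fun x y => d (x⁻¹ * y), ⟨?_, ?_, ?_⟩, ?_⟩
    · have hN1 : (1 : ℝ) ≤ Fintype.card X.G := by exact_mod_cast Fintype.card_pos
      have := Real.one_le_sqrt.2 hN1
      linarith
    · intro x y
      rw [Nat.cast_eq_zero, h1, inv_mul_eq_one]
    · intro x y
      rw [← h2]
      simp
    · intro x y z
      have := h3 (x⁻¹ * y) (y⁻¹ * z)
      rw [show x⁻¹ * y * (y⁻¹ * z) = x⁻¹ * z by group] at this
      exact_mod_cast this
    · intro x y
      have hp : X.P.path x y = (X.P.path 1 (x⁻¹ * y)).map (fun z => x * z) := by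
        rw [X.invariant x 1 (x⁻¹ * y), mul_one, mul_inv_cancel_left]
      rw [hp, pathLen_map, pathLen_eq _ 1]
      have := h4 (x⁻¹ * y)
      refine le_trans (le_of_eq ?_) this
      unfold tot
      rw [Nat.cast_sum]
      apply Finset.sum_congr rfl
      intro t _
      congr 2
      unfold vx
      group

end proofs

/-- Every group-invariant consistent path system in a Cayley graph of a finite group `G` has
`Δ ≤ 10 √|G|`; in particular there is no sequence of such systems with `|G_n| → ∞` and
`Δ(P_n) / √|G_n| → ∞`. -/
theorem result :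
    (∀ X : InvariantSystem, X.P.Delta ≤ 10 * Real.sqrt (Fintype.card X.G)) ∧
    ¬ ∃ X : ℕ → InvariantSystem,
      Filter.Tendsto (fun n => (Fintype.card (X n).G : ℝ)) Filter.atTop Filter.atTop ∧
      Filter.Tendsto (fun n => (X n).P.Delta / Real.sqrt (Fintype.card (X n).G))
        Filter.atTop Filter.atTop := by
  refine ⟨delta_le, ?_⟩
  rintro ⟨X, -, h⟩
  obtain ⟨n, hn⟩ := (h.eventually_gt_atTop 10).exists
  have h1 := delta_le (X n)
  have hN1 : (1 : ℝ) ≤ Fintype.card (X n).G := by exact_mod_cast Fintype.card_pos
  have h2 : 0 < Real.sqrt (Fintype.card (X n).G) := Real.sqrt_pos.2 (by linarith)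
  rw [lt_div_iff₀ h2] at hn
  linarith

end Pool.Agent.Results.MP_8f0578_co.SqrtUpperBound
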